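import Pool.Agent.Helper31.TW.St2

set_option autoImplicit false

namespace Pool.Agent.Helper39.TW

open Pool.Agent.Helper31.TW

/-- constant, increasing or decreasing sequences -/
def Typ (a : ℕ → ℤ) : Prop :=
  (∀ k, a k = a 0) ∨ (∀ k, 0 < a k ∧ a k < a (k + 1)) ∨ ∀ k, a k < 0 ∧ a (k + 1) < a k

theorem inc_ge {a : ℕ → ℤ} (h : ∀ k, 0 < a k ∧ a k < a (k + 1)) (k : ℕ) :
    (k : ℤ) + 1 ≤ a k := by
  induction k with
  | zero => have := (h 0).1; push_cast; omega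
  | succ k ih => have := (h k).2; push_cast; omega

theorem dec_le {a : ℕ → ℤ} (h : ∀ k, a k < 0 ∧ a (k + 1) < a k) (k : ℕ) :
    a k ≤ -((k : ℤ) + 1) := by
  induction k with
  | zero => have := (h 0).1; push_cast; omega
  | succ k ih => have := (h k).2; push_cast; omega

theorem const_of_const {a b : ℕ → ℤ} {c : ℕ → ℕ} (hc : ∀ k, k ≤ c k)
    (hcl : ∀ k, clip (c k + 1) (a k) = clip (c k + 1) (b k)) (ha : ∀ k, a k = a 0)
    (hb : Typ b) : ∀ k, b k = a 0 := by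
  have hlarge : ∀ k : ℕ, (a 0).natAbs ≤ k → b k = a 0 := by
    intro k hk
    have h1 := hcl k
    have h2 := ha k
    have h3 := hc k
    rw [h2] at h1
    simp only [clip] at h1
    push_cast at h1
    omega
  rcases hb with hb | hb | hb
  · intro k
    rw [hb k, ← hb (a 0).natAbs]
    exact hlarge _ le_rfl
  · exfalso
    have h1 := hlarge (a 0).natAbs le_rfl
    have h2 := hlarge ((a 0).natAbs + 1) (by omega)
    have h3 := (hb (a 0).natAbs).2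
    omega
  · exfalso
    have h1 := hlarge (a 0).natAbs le_rfl
    have h2 := hlarge ((a 0).natAbs + 1) (by omega)
    have h3 := (hb (a 0).natAbs).2
    omega

theorem seq_pair {a b : ℕ → ℤ} {c : ℕ → ℕ} (hc : ∀ k, k ≤ c k)
    (hcl : ∀ k, clip (c k + 1) (a k) = clip (c k + 1) (b k)) (ha : Typ a) (hb : Typ b) (k : ℕ) :
    Int.sign (a (k + 1) - a k) = Int.sign (b (k + 1) - b k) ∧
      (a (k + 1) - a k = 0 → a k = b k) := by
  by_cases hac : ∀ k, a k = a 0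
  · have h := const_of_const hc hcl hac hb
    refine ⟨?_, fun _ => ?_⟩
    · rw [hac (k + 1), hac k, h (k + 1), h k]
    · rw [hac k, h k]
  by_cases hbc : ∀ k, b k = b 0
  · exfalso
    have h := const_of_const hc (fun k => (hcl k).symm) hbc ha
    exact hac (fun k => by rw [h k, h 0])
  rcases ha with ha | ha | ha
  · exact absurd ha hac
  · rcases hb with hb | hb | hb
    · exact absurd hb hbc
    · have h1 := (ha k).2
      have h2 := (hb k).2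
      refine ⟨?_, fun h => by omega⟩
      rw [Int.sign_eq_one_of_pos (by omega), Int.sign_eq_one_of_pos (by omega)]
    · exfalso
      have h1 := (ha k).1
      have h2 := (hb k).1
      have h3 := hcl k
      simp only [clip] at h3
      push_cast at h3
      omega
  · rcases hb with hb | hb | hb
    · exact absurd hb hbc
    · exfalso
      have h1 := (ha k).1
      have h2 := (hb k).1
      have h3 := hcl k
      simp only [clip] at h3
      push_cast at h3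
      omega
    · have h1 := (ha k).2
      have h2 := (hb k).2
      refine ⟨?_, fun h => by omega⟩
      rw [Int.sign_eq_neg_one_of_neg (by omega), Int.sign_eq_neg_one_of_neg (by omega)]

theorem dot_add_smul {n : ℕ} (γ x y : Fin n → ℤ) (j : ℤ) :
    dot γ (x + j • y) = dot γ x + j * dot γ y := by
  simp only [dot, Pi.add_apply, Pi.smul_apply, smul_eq_mul, Finset.mul_sum, ← Finset.sum_add_distrib]
  exact Finset.sum_congr rfl (fun i _ => by ring)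

theorem dot_sub' {n : ℕ} (γ x y : Fin n → ℤ) :
    dot γ (x - y) = dot γ x - dot γ y := by
  simp only [dot, Pi.sub_apply, ← Finset.sum_sub_distrib]
  exact Finset.sum_congr rfl (fun i _ => by ring)

/-- the value of `M` is constant on the ray -/
theorem ray {n : ℕ} {M : (Fin n → ℤ) → Prop} {𝓐 : Finset (Fin n → ℤ)} {K : ℕ}
    (hd : Dep M 𝓐 K) (Z : ℕ → Fin n → ℤ) (hZ : ∀ γ ∈ 𝓐, Typ (fun k => dot γ (Z k))) (k : ℕ)
    (hk : K ≤ k) (j : ℕ) : M (Z k + (j : ℤ) • (Z (k + 1) - Z k)) ↔ M (Z k) := by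
  apply hd
  intro γ hγ
  rw [dot_add_smul, dot_sub']
  have hKk : (K : ℤ) ≤ k := by exact_mod_cast hk
  rcases hZ γ hγ with h | h | h
  · have h1 : dot γ (Z (k + 1)) = dot γ (Z 0) := h (k + 1)
    have h2 : dot γ (Z k) = dot γ (Z 0) := h k
    rw [h1, h2]
    simp
  · have h1 : (k : ℤ) + 1 ≤ dot γ (Z k) := inc_ge h k
    have h2 : dot γ (Z k) < dot γ (Z (k + 1)) := (h k).2
    have h3 : 0 ≤ (j : ℤ) * (dot γ (Z (k + 1)) - dot γ (Z k)) :=
      mul_nonneg (by positivity) (by omega)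
    simp only [clip]
    omega
  · have h1 : dot γ (Z k) ≤ -((k : ℤ) + 1) := dec_le h k
    have h2 : dot γ (Z (k + 1)) < dot γ (Z k) := (h k).2
    have h3 : (j : ℤ) * (dot γ (Z (k + 1)) - dot γ (Z k)) ≤ 0 :=
      mul_nonpos_of_nonneg_of_nonpos (by positivity) (by omega)
    simp only [clip]
    omega

theorem pos_ray {n : ℕ} {Z : ℕ → Fin n → ℤ} (hZ : ∀ i, Typ (fun k => Z k i))
    (hb : ∀ (k : ℕ) i, (k : ℤ) + 1 ≤ Z k i) (k : ℕ) : Pos (Z (k + 1) - Z k) := by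
  intro i
  simp only [Pi.sub_apply]
  rcases hZ i with h | h | h
  · exfalso
    have h1 : Z (Z 0 i).natAbs i = Z 0 i := h _
    have h2 := hb (Z 0 i).natAbs i
    omega
  · have : Z k i < Z (k + 1) i := (h k).2
    omega
  · exfalso
    have h1 : Z 0 i < 0 := (h 0).1
    have h2 := hb 0 i
    push_cast at h2
    omega

theorem hLIM (hEV1 : StEV1) (hGVE : StGVE) (hNEA : StNEA) (hACT : StACT) (hDST : StDST)
    (hNME : StNME) (hSEQ : StSEQ) : StLIM := by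
  classical
  intro n M 𝓐 K hC
  obtain ⟨D, hD, hN⟩ := hNME n M 𝓐 K hC
  refine ⟨D, hD, fun ρ => ?_⟩
  let E : Finset (Fin n → ℤ) :=
    𝓐.filter (fun α => ∃ x : Fin n → ℤ, (∀ i, (D : ℤ) ∣ x i - ρ i) ∧ Act M 𝓐 α x)
  have hEw : ∀ α ∈ E, ∀ β ∈ E, α ≠ β →
      ¬ ∃ y : Fin n → ℤ, Pos y ∧ dot α y = 0 ∧ dot β y = 0 := by
    intro α hα β hβ hne
    obtain ⟨hα1, hα2⟩ := Finset.mem_filter.1 hα
    obtain ⟨hβ1, hβ2⟩ := Finset.mem_filter.1 hβ
    exact hN ρ α hα1 β hβ1 hne hα2 hβ2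
  by_contra hcon
  have key : ∀ k : ℕ, ∃ x x' : Fin n → ℤ, (∀ i, (k : ℤ) + 1 ≤ x i ∧ (k : ℤ) + 1 ≤ x' i) ∧
      (∀ i, (D : ℤ) ∣ x i - ρ i ∧ (D : ℤ) ∣ x' i - ρ i) ∧
      (∀ α ∈ E, clip (k + 1) (dot α x) = clip (k + 1) (dot α x')) ∧ M x ∧ ¬ M x' := by
    intro k
    by_contra hno
    apply hcon
    refine ⟨k + 1, by omega, E, hEw, ?_⟩
    intro x x' h1 h2 h3
    by_contra hiff
    apply hno
    push_cast at h1
    by_cases hM : M x
    · refine ⟨x, x', h1, h2, h3, hM, ?_⟩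
      intro hM'
      exact hiff ⟨fun _ => hM', fun _ => hM⟩
    · refine ⟨x', x, fun i => ⟨(h1 i).2, (h1 i).1⟩, fun i => ⟨(h2 i).2, (h2 i).1⟩,
        fun α hα => (h3 α hα).symm, ?_, hM⟩
      by_contra hM'
      exact hiff ⟨fun h => absurd h hM, fun h => absurd h hM'⟩
  choose X X' hX1 hX2 hX3 hX4 hX5 using key
  obtain ⟨g, hg, hs⟩ := hSEQ ((Fin n ⊕ Fin n) ⊕ ({γ // γ ∈ 𝓐} ⊕ {γ // γ ∈ 𝓐}))
    (fun k => Sum.elim (Sum.elim (X k) (X' k))
      (Sum.elim (fun γ => dot γ.1 (X k)) (fun γ => dot γ.1 (X' k))))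
  have hgk : ∀ k, k ≤ g k := fun k => hg.le_apply
  let Z : ℕ → Fin n → ℤ := fun k => X (g k)
  let Z' : ℕ → Fin n → ℤ := fun k => X' (g k)
  have tZ : ∀ i, Typ (fun k => Z k i) := fun i => hs (Sum.inl (Sum.inl i))
  have tZ' : ∀ i, Typ (fun k => Z' k i) := fun i => hs (Sum.inl (Sum.inr i))
  have tD : ∀ γ ∈ 𝓐, Typ (fun k => dot γ (Z k)) := fun γ hγ => hs (Sum.inr (Sum.inl ⟨γ, hγ⟩))
  have tD' : ∀ γ ∈ 𝓐, Typ (fun k => dot γ (Z' k)) := fun γ hγ => hs (Sum.inr (Sum.inr ⟨γ, hγ⟩))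
  have bZ : ∀ (k : ℕ) i, (k : ℤ) + 1 ≤ Z k i := by
    intro k i
    have h1 := (hX1 (g k) i).1
    have h2 : (k : ℤ) ≤ g k := by exact_mod_cast hgk k
    show (k : ℤ) + 1 ≤ X (g k) i
    omega
  have bZ' : ∀ (k : ℕ) i, (k : ℤ) + 1 ≤ Z' k i := by
    intro k i
    have h1 := (hX1 (g k) i).2
    have h2 : (k : ℤ) ≤ g k := by exact_mod_cast hgk k
    show (k : ℤ) + 1 ≤ X' (g k) i
    omega
  set x := Z K with hx
  set x' := Z' K with hx'
  set y := Z (K + 1) - Z K with hy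
  set y' := Z' (K + 1) - Z' K with hy'
  have py : Pos y := pos_ray tZ bZ K
  have py' : Pos y' := pos_ray tZ' bZ' K
  have V : Ev M x y := ⟨0, fun k _ => (ray hC.dep Z tD K le_rfl k).2 (hX4 (g K))⟩
  have V' : ¬ Ev M x' y' := by
    rintro ⟨k0, hk0⟩
    exact hX5 (g K) ((ray hC.dep Z' tD' K le_rfl k0).1 (hk0 k0 le_rfl))
  have clx : ∀ i, (D : ℤ) ∣ x i - ρ i := fun i => (hX2 (g K) i).1
  have clx' : ∀ i, (D : ℤ) ∣ x' i - ρ i := fun i => (hX2 (g K) i).2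
  -- (a)
  have ha : ∀ α ∈ E, Int.sign (dot α y) = Int.sign (dot α y') ∧
      (dot α y = 0 → dot α x = dot α x') := by
    intro α hα
    have hα1 : α ∈ 𝓐 := (Finset.mem_filter.1 hα).1
    have h := seq_pair (a := fun k => dot α (Z k)) (b := fun k => dot α (Z' k)) (c := g) hgk
      (fun k => hX3 (g k) α hα) (tD α hα1) (tD' α hα1) K
    rw [hy, hy', dot_sub', dot_sub']
    exact h
  have mE : ∀ α ∈ 𝓐, Act M 𝓐 α x → α ∈ E := fun α hα h =>
    Finset.mem_filter.2 ⟨hα, x, clx, h⟩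
  have mE' : ∀ α ∈ 𝓐, Act M 𝓐 α x' → α ∈ E := fun α hα h =>
    Finset.mem_filter.2 ⟨hα, x', clx', h⟩
  obtain ⟨ev1, ev2, ev3⟩ := hEV1 n M 𝓐 K hC.dep
  -- (b)
  have hb : ∀ α ∈ 𝓐, dot α y = 0 → ¬ Act M 𝓐 α x := by
    intro α hα h0 hA
    have hαE := mE α hα hA
    obtain ⟨hsg, heq⟩ := ha α hαE
    have hxx := heq h0
    have h0' : dot α y' = 0 := by
      rw [h0] at hsg
      simp only [Int.sign_zero] at hsg
      exact Int.sign_eq_zero_iff_zero.1 hsg.symm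
    obtain ⟨a1, a2, a3, a4, a5, a6⟩ := hACT n M 𝓐 K hC α hα
    have hA' : Act M 𝓐 α x' := a2 x x' hA hxx.symm
    obtain ⟨y1, u, hG, hu, _⟩ := id hA
    have e1 : Ev M x y ↔ Ev M x y1 := a3 x y1 y hA hG py h0
    have e2 : Ev M x' y' ↔ Ev M x' y1 := a3 x' y1 y' hA' hG py' h0'
    have e3 : Ev M x y1 ↔ Ev M x' y1 := by
      apply ev3 x x' y1 y1 (fun _ _ => rfl)
      intro γ hγ hγ0
      by_cases hγα : γ = α
      · rw [hγα]; exact hxx
      · exact absurd hγ0 (hG.2.2 γ hγ hγα)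
    exact V' (e2.2 (e3.1 (e1.1 V)))
  have hb' : ∀ α ∈ 𝓐, dot α y' = 0 → ¬ Act M 𝓐 α x' := by
    intro α hα h0' hA'
    have hαE := mE' α hα hA'
    obtain ⟨hsg, heq⟩ := ha α hαE
    have h0 : dot α y = 0 := by
      rw [h0'] at hsg
      simp only [Int.sign_zero] at hsg
      exact Int.sign_eq_zero_iff_zero.1 hsg
    obtain ⟨a1, a2, a3, a4, a5, a6⟩ := hACT n M 𝓐 K hC α hα
    exact hb α hα h0 (a2 x' x hA' (heq h0))
  -- (c)
  obtain ⟨w, _, hw⟩ := hGVE n 0 𝓐 (by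
    intro β hβ
    obtain ⟨u, hu⟩ := hC.nrm.1 β hβ
    refine ⟨u, ?_, by rw [hu]; exact one_ne_zero⟩
    simp [dot])
  obtain ⟨N0, hN0⟩ := hNEA n 𝓐 y w py
  obtain ⟨pz, hz1, hz2⟩ := hN0 N0 le_rfl
  set z : Fin n → ℤ := (N0 : ℤ) • y + w with hzd
  have hz : ∀ γ ∈ 𝓐, dot γ z ≠ 0 := by
    intro γ hγ h0
    by_cases hγy : dot γ y = 0
    · rw [hz2 γ hγ hγy] at h0
      exact hw γ hγ h0
    · have h1 := hz1 γ hγ hγy
      rw [h0, Int.sign_zero] at h1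
      exact hγy (Int.sign_eq_zero_iff_zero.1 h1.symm)
  have hJ : ∀ γ ∈ 𝓐, Jmp M 𝓐 γ → Int.sign (dot γ z) = Int.sign (dot γ y) := by
    intro γ hγ hJ
    obtain ⟨a1, a2, a3, a4, a5, a6⟩ := hACT n M 𝓐 K hC γ hγ
    exact hz1 γ hγ (fun h0 => hb γ hγ h0 (a5 hJ x))
  have hJ' : ∀ γ ∈ 𝓐, Jmp M 𝓐 γ → Int.sign (dot γ z) = Int.sign (dot γ y') := by
    intro γ hγ hJγ
    rw [hJ γ hγ hJγ]
    obtain ⟨a1, a2, a3, a4, a5, a6⟩ := hACT n M 𝓐 K hC γ hγ
    exact (ha γ (mE γ hγ (a5 hJγ x))).1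
  have d1 := hDST n M 𝓐 K hC x y z py pz hz hb hJ
  have d2 := hDST n M 𝓐 K hC x' y' z py' pz hz hb' hJ'
  exact V' (d2.2 (d1.1 V))

end Pool.Agent.Helper39.TW

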